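import Pool.Agent.Work.MP_29fd3c_th.Uniform

/-!
# MP_29fd3c_ag: multiplicities of theta divisors near the cubical part of the boundary of `A_g`
-/

set_option autoImplicit false

namespace Pool.Agent.Results.MP_29fd3c_ag.NearCubicalCusp

/-- For every `g` there is `η > 0` such that: if `τ` is a period matrix whose diagonal entries have
imaginary part `≥ t ≥ 1 / η`, whose other entries have imaginary part at most `η t` in absolute
value, and `k = (g - #fixed points) / 2` disjoint pairs `{i, p i}` of indices satisfy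
`|exp (2πi τ_{i, p i}) - 1| ≥ exp (-η t)`, then Riemann's theta function has multiplicity at most
`g - k` at every point. -/
theorem result (g : ℕ) : ∃ η : ℝ, 0 < η ∧
    ∀ τ : Matrix (Fin g) (Fin g) ℂ, τ.transpose = τ → (τ.map Complex.im).PosDef →
    ∀ t : ℝ, 1 / η ≤ t → (∀ i, t ≤ (τ i i).im) → (∀ i j, i ≠ j → |(τ i j).im| ≤ η * t) →
    ∀ p : Fin g → Fin g, (∀ i, p (p i) = i) →
    (∀ i, p i ≠ i →
      Real.exp (-(η * t)) ≤ ‖Complex.exp (2 * Real.pi * Complex.I * τ i (p i)) - 1‖) →
    ∀ z : Fin g → ℂ, ∃ m : ℕ, 2 * m ≤ g + (Finset.univ.filter (fun i => p i = i)).card ∧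
      iteratedFDeriv ℂ m
        (fun w : Fin g → ℂ => ∑' n : Fin g → ℤ,
          Complex.exp (Real.pi * Complex.I *
              dotProduct (fun i => (n i : ℂ)) (τ.mulVec (fun i => (n i : ℂ))) +
            2 * Real.pi * Complex.I * dotProduct (fun i => (n i : ℂ)) w)) z ≠ 0 :=
  Pool.TH.uniform g

end Pool.Agent.Results.MP_29fd3c_ag.NearCubicalCusp
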