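import Pool.Agent.Work.MP_29fd3c_np.All

/-!
# MP_29fd3c_ag: multiplicities of theta divisors near products of elliptic curves
-/

set_option autoImplicit false

namespace Pool.Agent.Results.MP_29fd3c_ag.NearEllipticProducts

/-- For every `g` and `κ > 0` there is `ε > 0` such that the following holds for every period matrix
`τ` with `Im τ i i ≥ √3 / 2` and `‖τ i j‖ ≤ l i * l j` (`i ≠ j`) for some numbers `0 < l i ≤ ε`, and
for every point `z`.
(a) If every row `i` has at most `r` entries with `‖τ i j‖ < κ * l i * l j`, `j ≠ i`, then Riemann's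
theta function has multiplicity at most `(g + 1 + r) / 2` at `z`.
(b) If `κ * l i * l j ≤ ‖τ i j‖` for three disjoint pairs, then the multiplicity at `z` is at most
`g - 3`. -/
theorem result (g : ℕ) (κ : ℝ) (hκ : 0 < κ) : ∃ ε : ℝ, 0 < ε ∧
    ∀ τ : Matrix (Fin g) (Fin g) ℂ, τ.transpose = τ → (τ.map Complex.im).PosDef →
    (∀ i, Real.sqrt 3 / 2 ≤ (τ i i).im) →
    ∀ l : Fin g → ℝ, (∀ i, 0 < l i ∧ l i ≤ ε) → (∀ i j, i ≠ j → ‖τ i j‖ ≤ l i * l j) →
    ∀ z : Fin g → ℂ,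
      (∀ r : ℕ, (∀ i, Set.ncard {j | j ≠ i ∧ ‖τ i j‖ < κ * l i * l j} ≤ r) →
        ∃ m : ℕ, 2 * m ≤ g + 1 + r ∧ iteratedFDeriv ℂ m
          (fun w : Fin g → ℂ => ∑' n : Fin g → ℤ,
            Complex.exp (Real.pi * Complex.I *
                dotProduct (fun i => (n i : ℂ)) (τ.mulVec (fun i => (n i : ℂ))) +
              2 * Real.pi * Complex.I * dotProduct (fun i => (n i : ℂ)) w)) z ≠ 0) ∧
      (∀ i : Fin 6 → Fin g, Function.Injective i →
        κ * l (i 0) * l (i 1) ≤ ‖τ (i 0) (i 1)‖ → κ * l (i 2) * l (i 3) ≤ ‖τ (i 2) (i 3)‖ →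
        κ * l (i 4) * l (i 5) ≤ ‖τ (i 4) (i 5)‖ →
        ∃ m : ℕ, m + 3 ≤ g ∧ iteratedFDeriv ℂ m
          (fun w : Fin g → ℂ => ∑' n : Fin g → ℤ,
            Complex.exp (Real.pi * Complex.I *
                dotProduct (fun i => (n i : ℂ)) (τ.mulVec (fun i => (n i : ℂ))) +
              2 * Real.pi * Complex.I * dotProduct (fun i => (n i : ℂ)) w)) z ≠ 0) :=
  Pool.TNP.final g κ hκ

end Pool.Agent.Results.MP_29fd3c_ag.NearEllipticProducts
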