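import Pool.Agent.Work.MP_29fd3c_tk.Main2

/-!
# MP_29fd3c_ag: multiplicities of theta divisors of abelian varieties without short periods
-/

set_option autoImplicit false

namespace Pool.Agent.Results.MP_29fd3c_ag.NoShortPeriods

/-- Riemann's theta function of the period matrix `τ`. -/
noncomputable def theta {g : ℕ} (τ : Matrix (Fin g) (Fin g) ℂ) (w : Fin g → ℂ) : ℂ :=
  ∑' n : Fin g → ℤ, Complex.exp (Real.pi * Complex.I *
      dotProduct (fun i => (n i : ℂ)) (τ.mulVec (fun i => (n i : ℂ))) +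
    2 * Real.pi * Complex.I * dotProduct (fun i => (n i : ℂ)) w)

/-- The period `p.1 + τ p.2`. -/
noncomputable def per {g : ℕ} (τ : Matrix (Fin g) (Fin g) ℂ) (p : (Fin g → ℤ) × (Fin g → ℤ)) :
    Fin g → ℂ :=
  (fun i => (p.1 i : ℂ)) + τ.mulVec (fun i => (p.2 i : ℂ))

/-- The Hermitian form of the principal polarization: `v* (Im τ)⁻¹ v`. -/
noncomputable def H {g : ℕ} (τ : Matrix (Fin g) (Fin g) ℂ) (v : Fin g → ℂ) : ℝ :=
  (dotProduct (star v) ((((τ.map Complex.im)⁻¹).map (fun x : ℝ => (x : ℂ))).mulVec v)).re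

/-- The sum of `(1 + π H(λ) / √g) ^ 3 * exp (-(π / 2) t H(λ))` over the nonzero periods `λ`. -/
noncomputable def N {g : ℕ} (t : ℝ) (τ : Matrix (Fin g) (Fin g) ℂ) : ℝ :=
  ∑' p : (Fin g → ℤ) × (Fin g → ℤ), (if p = 0 then 0 else
    (1 + Real.pi * H τ (per τ p) / Real.sqrt g) ^ 3 *
      Real.exp (-(Real.pi / 2 * t * H τ (per τ p))))

/-- The period matrix `X + i y` where `X` is the symmetric matrix with entries `x i j`, `i ≤ j`. -/
noncomputable def tau {g : ℕ} (x : Fin g → Fin g → ℝ) (y : ℝ) : Matrix (Fin g) (Fin g) ℂ :=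
  fun i j => (x (min i j) (max i j) : ℂ) + if i = j then (y : ℂ) * Complex.I else 0

/-- Let `g ≥ 64` and `2 ≤ t ≤ 11 / 5`.
(1) For all period matrices `τ` of size `g` with `N t τ < 1`, the multiplicity of the theta divisor
at every point is at most `g (t - 1) / 2 - √g / 2 + 1`. For `t = 2 + 1 / √g - 1 / g` this number is
`(g + 1) / 2`.
(2) Extent of this region: for small `y`, the volume of the set of the `x` in the unit cube for which
`X + i y` is not in it is at most `2 g ^ (3 / 2) (2 / t) ^ g + η`. -/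
theorem result (g : ℕ) (hg : 64 ≤ g) (t : ℝ) (ht : 2 ≤ t) (ht' : t ≤ 11 / 5) :
    (∀ τ : Matrix (Fin g) (Fin g) ℂ, τ.transpose = τ → (τ.map Complex.im).PosDef → N t τ < 1 →
      ∀ z : Fin g → ℂ, ∃ m : ℕ, (m : ℝ) ≤ g * (t - 1) / 2 - Real.sqrt g / 2 + 1 ∧
        iteratedFDeriv ℂ m (theta τ) z ≠ 0) ∧
    (∀ η : ℝ, 0 < η → ∃ y₀ : ℝ, 0 < y₀ ∧ ∀ y : ℝ, 0 < y → y < y₀ →
      MeasureTheory.volume {x : Fin g → Fin g → ℝ | (∀ i j, 0 ≤ x i j ∧ x i j < 1) ∧
        ¬ N t (tau x y) < 1} ≤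
        ENNReal.ofReal (2 * Real.sqrt g ^ 3 * (2 / t) ^ g + η)) := by
  constructor
  · intro τ hτ hY hN z
    exact Pool.TK.Main.main g hg τ hτ hY t ht ht' hN z
  · intro η hη
    obtain ⟨y₀, hy₀, h⟩ := Pool.TK.Main.main2 g hg t ht η hη
    refine ⟨y₀, hy₀, fun y hy hyy => le_trans (MeasureTheory.measure_mono ?_) (h y hy hyy)⟩
    rintro x ⟨hx, h1⟩
    exact ⟨hx, not_lt.1 h1⟩

end Pool.Agent.Results.MP_29fd3c_ag.NoShortPeriods
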