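import Pool.Agent.Work.MP_29fd3c_cd.Fin

/-!
# MP_29fd3c_ag: multiplicities of theta divisors near the cones of regular matroids
-/

set_option autoImplicit false

namespace Pool.Agent.Results.MP_29fd3c_ag.UnimodularCones

/-- Let `V` be a totally unimodular matrix with rows `V e` in `ℤ ^ g`. There is `η > 0` such that:
let `S` be a set of rows which spans `ℝ ^ g` and whose elements satisfy a linear relation with
nonzero coefficients (for example a circuit with `g + 1` elements). Let `τ` be a period matrix such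
that `Im τ` is entrywise at distance at most `η t` from `∑ e, s e * (V e)ᵀ (V e)`, where `s e ≥ 0`
for all `e`, `s e ≥ t` for the `e` in `S` and `t ≥ 1 / η`. Then Riemann's theta function has
multiplicity at most `|S| / 2` at every point. -/
theorem result (g : ℕ) (ι : Type) [Fintype ι] (V : Matrix ι (Fin g) ℤ)
    (hV : V.IsTotallyUnimodular) :
    ∃ η : ℝ, 0 < η ∧ ∀ S : Finset ι,
      (∀ x : Fin g → ℝ, (∀ e ∈ S, ∑ i, (V e i : ℝ) * x i = 0) → x = 0) →
      ∀ c : ι → ℝ, (∀ e ∈ S, c e ≠ 0) → (∀ i, ∑ e ∈ S, c e * (V e i : ℝ) = 0) →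
      ∀ τ : Matrix (Fin g) (Fin g) ℂ, τ.transpose = τ → (τ.map Complex.im).PosDef →
      ∀ (t : ℝ) (s : ι → ℝ), 1 / η ≤ t → (∀ e, 0 ≤ s e) → (∀ e ∈ S, t ≤ s e) →
      (∀ i j, |(τ i j).im - ∑ e, s e * (V e i : ℝ) * (V e j : ℝ)| ≤ η * t) →
      ∀ z : Fin g → ℂ, ∃ m : ℕ, m ≤ S.card / 2 ∧
        iteratedFDeriv ℂ m
          (fun w : Fin g → ℂ => ∑' n : Fin g → ℤ,
            Complex.exp (Real.pi * Complex.I *
                dotProduct (fun i => (n i : ℂ)) (τ.mulVec (fun i => (n i : ℂ))) +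
              2 * Real.pi * Complex.I * dotProduct (fun i => (n i : ℂ)) w)) z ≠ 0 :=
  Pool.TCD.tu_all V hV

end Pool.Agent.Results.MP_29fd3c_ag.UnimodularCones
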